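import Pool.Agent.H75.Ov.Fin

/-!
Helper file for `MP_035beb_an.FarHarmonicPairs`: infinitely many directions of symmetry give all
directions, and the curve is an ellipse.
-/

open Topology Filter Set
open Pool.Agent.Results.MP_035beb_an.Ellipse

namespace Pool.Agent.H75.Ov

noncomputable section

variable {K : Set (ℝ × ℝ)}

lemma exists_orthonormal (hK : IsCompact K) (hne : (interior K).Nonempty) :
    ∃ u w : ℝ × ℝ, inertia K u u = 1 ∧ inertia K w w = 1 ∧ inertia K u w = 0 := by
  have h0 : ((1, 0) : ℝ × ℝ) ≠ 0 := by simp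
  have ha := inertia_pos hK hne h0
  set a0 := inertia K (1, 0) (1, 0) with ha0
  have hs : √a0 ≠ 0 := (Real.sqrt_pos.2 ha).ne'
  have hs2 : √a0 * √a0 = a0 := Real.mul_self_sqrt ha.le
  set u : ℝ × ℝ := (√a0)⁻¹ • ((1, 0) : ℝ × ℝ) with hu
  have huu : inertia K u u = 1 := by
    rw [hu, inertia_smul_left, inertia_smul_right, ← ha0]
    nth_rewrite 3 [← hs2]
    field_simp
  set w0 : ℝ × ℝ := (0, 1) - (inertia K (0, 1) u) • u with hw0
  have hw0ne : w0 ≠ 0 := by
    intro h
    have := congrArg Prod.snd h
    simp [hw0, hu] at this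
  have hw0u : inertia K u w0 = 0 := by
    rw [hw0, inertia_sub_right, inertia_smul_right, huu, inertia_symm u]
    ring
  have hb := inertia_pos hK hne hw0ne
  set b0 := inertia K w0 w0 with hb0
  have ht : √b0 ≠ 0 := (Real.sqrt_pos.2 hb).ne'
  have ht2 : √b0 * √b0 = b0 := Real.mul_self_sqrt hb.le
  refine ⟨u, (√b0)⁻¹ • w0, huu, ?_, ?_⟩
  · rw [inertia_smul_left, inertia_smul_right, ← hb0]
    nth_rewrite 3 [← ht2]
    field_simp
  · rw [inertia_smul_right, hw0u, mul_zero]

lemma expand {u w : ℝ × ℝ} (huu : inertia K u u = 1) (hww : inertia K w w = 1)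
    (huw : inertia K u w = 0) (x : ℝ × ℝ) : x = inertia K x u • u + inertia K x w • w := by
  have hu0 : u ≠ 0 := by
    rintro rfl
    simp [inertia] at huu
  have hd : det2 u w ≠ 0 := by
    intro h
    obtain ⟨r, hr⟩ := exists_smul_of_det2 hu0 h
    rw [hr, inertia_smul_right, huu] at huw
    have : r = 0 := by linarith
    rw [hr, this, zero_smul] at hww
    simp [inertia] at hww
  have hcramer : (det2 u w) • x = (det2 x w) • u + (det2 u x) • w := by
    ext
    · simp only [det2, Prod.smul_fst, Prod.fst_add, smul_eq_mul]; ring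
    · simp only [det2, Prod.smul_snd, Prod.snd_add, smul_eq_mul]; ring
  have h1 := congrArg (fun z => inertia K z u) hcramer
  have h2 := congrArg (fun z => inertia K z w) hcramer
  rw [inertia_smul_left, inertia_add_left, inertia_smul_left, inertia_smul_left, huu,
    inertia_symm w u, huw] at h1
  rw [inertia_smul_left, inertia_add_left, inertia_smul_left, inertia_smul_left, hww, huw] at h2
  apply smul_right_injective _ hd
  change det2 u w • x = det2 u w • (inertia K x u • u + inertia K x w • w)
  rw [smul_add, smul_smul, smul_smul, h1, h2, hcramer]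
  congr 2 <;> ring

lemma all_dirs (hK : IsCompact K) (hne : (interior K).Nonempty)
    {E : Set ℝ} (hE : E.Infinite)
    (H : ∀ m ∈ E, ∀ x ∈ frontier K, irefl K (1, m) x ∈ frontier K) :
    ∀ e : ℝ × ℝ, e ≠ 0 → ∀ x ∈ frontier K, irefl K e x ∈ frontier K := by
  obtain ⟨u, w, huu, hww, huw⟩ := exists_orthonormal hK hne
  have hwu : inertia K w u = 0 := by rw [inertia_symm, huw]
  set C := centroid K with hC
  set Ψ : ℂ → ℝ × ℝ := fun z => C + (z.re • u + z.im • w) with hΨ
  have hΨc : Continuous Ψ := by
    simp only [hΨ]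
    exact continuous_const.add
      ((Complex.continuous_re.smul continuous_const).add
        (Complex.continuous_im.smul continuous_const))
  set G : Set ℂ := Ψ ⁻¹' (frontier K) with hG
  have hGcl : IsClosed G := isClosed_frontier.preimage hΨc
  have hΨx : ∀ x : ℝ × ℝ, Ψ ⟨inertia K (x - C) u, inertia K (x - C) w⟩ = x := by
    intro x
    have := expand (K := K) huu hww huw (x - C)
    simp only [hΨ]
    rw [← this]; abel
  set dir : ℝ → ℝ × ℝ := fun θ => Real.cos θ • u + Real.sin θ • w with hdir
  have hdd : ∀ θ, inertia K (dir θ) (dir θ) = 1 := by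
    intro θ
    simp only [hdir]
    rw [inertia_add_left, inertia_smul_left, inertia_smul_left, inertia_add_right,
      inertia_add_right, inertia_smul_right, inertia_smul_right, inertia_smul_right,
      inertia_smul_right, huu, hww, huw, hwu]
    have := Real.cos_sq_add_sin_sq θ
    linarith
  have hdir0 : ∀ θ, dir θ ≠ 0 := by
    intro θ h
    have := hdd θ
    rw [h] at this
    simp [inertia] at this
  have hpolar : ∀ e : ℝ × ℝ, e ≠ 0 → ∃ r : ℝ, r ≠ 0 ∧
      e = r • dir (Complex.arg ⟨inertia K e u, inertia K e w⟩) := by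
    intro e he
    set z : ℂ := ⟨inertia K e u, inertia K e w⟩ with hz
    have h1 := expand (K := K) huu hww huw e
    have h2 : e = ‖z‖ • dir (Complex.arg z) := by
      have e1 := Complex.norm_mul_cos_arg z
      have e2 := Complex.norm_mul_sin_arg z
      have e3 : z.re = inertia K e u := rfl
      have e4 : z.im = inertia K e w := rfl
      simp only [hdir]
      rw [smul_add, smul_smul, smul_smul, e1, e2, e3, e4]
      exact h1
    refine ⟨‖z‖, ?_, h2⟩
    intro h
    rw [h, zero_smul] at h2
    exact he h2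
  have hrf : ∀ (θ : ℝ) (z : ℂ), irefl K (dir θ) (Ψ z) = Ψ (rf θ z) := by
    intro θ z
    have h1 : inertia K (Ψ z - C) (dir θ) = z.re * Real.cos θ + z.im * Real.sin θ := by
      have : Ψ z - C = z.re • u + z.im • w := by simp only [hΨ]; abel
      rw [this]
      simp only [hdir]
      rw [inertia_add_left, inertia_smul_left, inertia_smul_left, inertia_add_right,
        inertia_add_right, inertia_smul_right, inertia_smul_right, inertia_smul_right,
        inertia_smul_right, huu, hww, huw, hwu]
      ring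
    have hexp : Complex.exp ((2 * θ : ℝ) * Complex.I) =
        ⟨Real.cos (2 * θ), Real.sin (2 * θ)⟩ := by
      apply Complex.ext
      · rw [Complex.exp_ofReal_mul_I_re]
      · rw [Complex.exp_ofReal_mul_I_im]
    have h2 : (rf θ z).re = z.re - 2 * (z.re * Real.cos θ + z.im * Real.sin θ) * Real.cos θ := by
      unfold rf
      rw [hexp]
      simp only [Complex.mul_re, Complex.neg_re, Complex.neg_im, Complex.conj_re, Complex.conj_im]
      rw [Real.cos_two_mul, Real.sin_two_mul]
      ring
    have h3 : (rf θ z).im = z.im - 2 * (z.re * Real.cos θ + z.im * Real.sin θ) * Real.sin θ := by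
      unfold rf
      rw [hexp]
      simp only [Complex.mul_im, Complex.neg_re, Complex.neg_im, Complex.conj_re, Complex.conj_im]
      rw [Real.cos_two_mul, Real.sin_two_mul]
      have := Real.sin_sq_add_cos_sq θ
      have h4 : Real.cos θ ^ 2 = 1 - Real.sin θ ^ 2 := by linarith
      rw [h4]
      ring
    unfold irefl
    rw [hdd, div_one, ← hC, h1]
    simp only [hΨ, hdir]
    rw [h2, h3]
    ext
    · simp only [Prod.fst_add, Prod.fst_sub, Prod.smul_fst, smul_eq_mul]; ring
    · simp only [Prod.snd_add, Prod.snd_sub, Prod.smul_snd, smul_eq_mul]; ring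
  have hinf : (SymA G ∩ Icc (-Real.pi) Real.pi).Infinite := by
    refine Set.infinite_of_injOn_mapsTo (s := E)
      (f := fun m => Complex.arg ⟨inertia K (1, m) u, inertia K (1, m) w⟩) ?_ ?_ hE
    · intro m _ m' _ hmm
      obtain ⟨r, hr0, hr⟩ := hpolar (1, m) (by simp)
      obtain ⟨r', hr0', hr'⟩ := hpolar (1, m') (by simp)
      simp only at hmm
      rw [hmm] at hr
      set d := dir (Complex.arg ⟨inertia K (1, m') u, inertia K (1, m') w⟩) with hd
      have a1 : 1 = r * d.1 := congrArg Prod.fst hr
      have a2 : m = r * d.2 := congrArg Prod.snd hr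
      have b1 : 1 = r' * d.1 := congrArg Prod.fst hr'
      have b2 : m' = r' * d.2 := congrArg Prod.snd hr'
      have hd1 : d.1 ≠ 0 := by
        intro h
        rw [h, mul_zero] at a1
        exact one_ne_zero a1
      have : r = r' := mul_right_cancel₀ hd1 (by rw [← a1, ← b1])
      rw [a2, b2, this]
    · intro m hm
      refine ⟨?_, ?_⟩
      · intro z hz
        obtain ⟨r, hr0, hr⟩ := hpolar (1, m) (by simp)
        have h1 := H m hm (Ψ z) hz
        rw [hr, irefl_smul hK hne (hdir0 _) hr0, hrf] at h1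
        exact h1
      · have := Complex.arg_mem_Ioc ⟨inertia K (1, m) u, inertia K (1, m) w⟩
        exact ⟨this.1.le, this.2⟩
  intro e he x hx
  obtain ⟨r, hr0, hr⟩ := hpolar e he
  rw [hr, irefl_smul hK hne (hdir0 _) hr0, ← hΨx x, hrf]
  refine all_angles hGcl hinf _ _ ?_
  change Ψ _ ∈ frontier K
  rw [hΨx]
  exact hx

/-- **Infinitely many directions with the diametral property force an ellipse.** -/
theorem ellipse_of_dirs (hK : IsCompact K) (hs : StrictConvex ℝ K) (hne : (interior K).Nonempty)
    {E : Set ℝ} (hE : E.Infinite) (hd : ∀ m ∈ E, DiaDir K (1, m)) :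
    ∃ Φ : (ℝ × ℝ) ≃ᵃ[ℝ] (ℝ × ℝ), frontier K = Φ '' {p : ℝ × ℝ | p.1 ^ 2 + p.2 ^ 2 = 1} := by
  have hdia : Dia K := dia_of_irefl hK hs hne (all_dirs hK hne hE fun m hm x hx =>
    irefl_mem_of_dia hK hs hne (by simp) (hd m hm) hx)
  obtain ⟨ρ, hρ, hf⟩ := frontier_eq hK hs hne hdia
  set I22 := ∫ x in K, (x.2 - (centroid K).2) ^ 2 with hI22
  set I12 := ∫ x in K, (x.1 - (centroid K).1) * (x.2 - (centroid K).2) with hI12
  set I11 := ∫ x in K, (x.1 - (centroid K).1) ^ 2 with hI11
  have hform : ∀ u : ℝ × ℝ, inertia K u u = I22 * u.1 ^ 2 + 2 * (-I12) * u.1 * u.2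
      + I11 * u.2 ^ 2 := by
    intro u
    simp only [inertia, ← hI22, ← hI12, ← hI11]; ring
  have ha : 0 < I22 := by
    have := inertia_pos hK hne (u := (1, 0)) (by simp)
    rw [hform] at this
    simpa using this
  have hdisc : 0 < I22 * I11 - (-I12) ^ 2 := by
    have := inertia_pos hK hne (u := (I12, I22)) (by
      intro h
      have := congrArg Prod.snd h
      simp only [Prod.snd_zero] at this
      linarith)
    rw [hform] at this
    simp only at this
    have h2 : I22 * (I22 * I11 - (-I12) ^ 2) > 0 := by nlinarith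
    exact (mul_pos_iff_of_pos_left ha).1 h2
  obtain ⟨Φ, hΦ⟩ := ellipse_of_form ha hdisc hρ (centroid K)
  refine ⟨Φ, ?_⟩
  rw [hf, ← hΦ]
  ext x
  simp only [mem_ofPred_eq, hform, Prod.fst_sub, Prod.snd_sub]

end

end Pool.Agent.H75.Ov
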