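import Pool.Graph.R_seed8.Results.MP_035beb_an.Ellipse

/-!
Helper file for `MP_035beb_an.FarHarmonicPairs`: the reflection in ONE direction.
Adapted from the library (`Pool.Graph.R_seed8.Results.MP_035beb_an.Ellipse`).
-/

open Topology Filter Set MeasureTheory
open Pool.Agent.Results.MP_035beb_an.Ellipse

namespace Pool.Agent.H75.Ov

noncomputable section

variable {K : Set (ℝ × ℝ)} {c : ℝ → ℝ × ℝ}

/-- The diametral property for the chords parallel to one direction `e`. -/
def DiaDir (K : Set (ℝ × ℝ)) (e : ℝ × ℝ) : Prop :=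
  ∀ A ∈ frontier K, ∀ B ∈ frontier K, A ≠ B → det2 e (B - A) = 0 →
    ∀ T ∈ frontier K, ∀ T' ∈ frontier K,
    (∀ x ∈ K, det2 (B - A) x ≤ det2 (B - A) T) → (∀ x ∈ K, det2 (B - A) T' ≤ det2 (B - A) x) →
    ∃ s : ℝ, 1 < s ∧ T' = T + s • ((A + (1/2 : ℝ) • (B - A)) - T)

lemma refl_mem_frontier' (hK : IsCompact K) (hs : StrictConvex ℝ K) {e T T' : ℝ × ℝ}
    (he : e ≠ 0) (hdia : DiaDir K e) (hT : T ∈ frontier K) (hT' : T' ∈ frontier K)
    (hTmax : ∀ x ∈ K, det2 e x ≤ det2 e T) (hTmin : ∀ x ∈ K, det2 e T' ≤ det2 e x)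
    (hδ : det2 e (T' - T) ≠ 0)
    {x : ℝ × ℝ} (hx : x ∈ frontier K) : refl e (T' - T) T x ∈ frontier K := by
  have hTK := frontier_sub hK hT
  have hT'K := frontier_sub hK hT'
  have hxK := frontier_sub hK hx
  by_cases hxT : det2 e x = det2 e T
  · have : x = T := max_unique hs he hTK hTmax hxK hxT
    rw [this, Results.MP_035beb_an.Ellipse.refl, sub_self]
    simpa [det2] using hT
  by_cases hxT' : det2 e x = det2 e T'
  · have : x = T' := min_unique hs he hT'K hTmin hxK hxT'
    rw [this, Results.MP_035beb_an.Ellipse.refl, det2_self]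
    simpa using hT'
  have hZ1 : det2 e x < det2 e T := lt_of_le_of_ne (hTmax x hxK) hxT
  have hZ2 : det2 e T' < det2 e x := lt_of_le_of_ne (hTmin x hxK) (Ne.symm hxT')
  have hden : 0 < det2 e T - det2 e T' := by linarith
  set θ : ℝ := (det2 e x - det2 e T') / (det2 e T - det2 e T') with hθ
  set m0 : ℝ × ℝ := T' + θ • (T - T') with hm0
  have hTT' : T' ≠ T := by
    intro h; rw [h] at hden; linarith
  have hm0int : m0 ∈ interior K := between_interior hs hT'K hTK hTT'
    (div_pos (by linarith) hden) (by rw [hθ, div_lt_one hden]; linarith)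
  have hm0Z : det2 e (m0 - x) = 0 := by
    rw [hm0, det2_sub_right, det2_add_right, det2_smul_right, det2_sub_right, hθ,
      div_mul_cancel₀ _ hden.ne']
    ring
  obtain ⟨τ, hτ⟩ := exists_smul_of_det2 he hm0Z
  have hτ0 : τ ≠ 0 := by
    rintro rfl
    rw [zero_smul, sub_eq_zero] at hτ
    exact not_interior hx (hτ ▸ hm0int)
  obtain ⟨s, hs1, hyf⟩ := exists_opp hK hm0int hx
  rw [hτ, smul_smul] at hyf
  set κ : ℝ := s * τ with hκ
  have hκ0 : κ ≠ 0 := mul_ne_zero (by linarith) hτ0
  have hyx : x + κ • e ≠ x := by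
    intro h
    have : κ • e = 0 := by simpa using h
    rcases smul_eq_zero.1 this with h | h
    · exact hκ0 h
    · exact he h
  have hmid : det2 ((x + (κ / 2) • e) - T) (T' - T) = 0 := by
    rcases lt_or_gt_of_ne hκ0 with hneg | hpos
    · obtain ⟨s', hs', hT's⟩ := hdia _ hyf x hx hyx (by
        have h1 : x - (x + κ • e) = (-κ) • e := by rw [neg_smul]; abel
        rw [h1, det2_smul_right, det2_self, mul_zero]) T hT T' hT' (by
        intro z hz
        have h1 : x - (x + κ • e) = (-κ) • e := by rw [neg_smul]; abel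
        rw [h1, det2_smul_left, det2_smul_left]
        exact mul_le_mul_of_nonneg_left (hTmax z hz) (by linarith)) (by
        intro z hz
        have h1 : x - (x + κ • e) = (-κ) • e := by rw [neg_smul]; abel
        rw [h1, det2_smul_left, det2_smul_left]
        exact mul_le_mul_of_nonneg_left (hTmin z hz) (by linarith))
      have h2 : x + κ • e + (1 / 2 : ℝ) • (x - (x + κ • e)) = x + (κ / 2) • e := by
        ext
        · simp only [Prod.fst_add, Prod.fst_sub, Prod.smul_fst, smul_eq_mul]; ring
        · simp only [Prod.snd_add, Prod.snd_sub, Prod.smul_snd, smul_eq_mul]; ring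
      rw [h2] at hT's
      have h3 : T' - T = s' • (x + (κ / 2) • e - T) := by
        rw [sub_eq_iff_eq_add, add_comm]; exact hT's
      rw [h3, det2_smul_right, det2_self, mul_zero]
    · obtain ⟨s', hs', hT's⟩ := hdia x hx _ hyf hyx.symm (by
        have h1 : (x + κ • e) - x = κ • e := by abel
        rw [h1, det2_smul_right, det2_self, mul_zero]) T hT T' hT' (by
        intro z hz
        have h1 : (x + κ • e) - x = κ • e := by abel
        rw [h1, det2_smul_left, det2_smul_left]
        exact mul_le_mul_of_nonneg_left (hTmax z hz) (by linarith)) (by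
        intro z hz
        have h1 : (x + κ • e) - x = κ • e := by abel
        rw [h1, det2_smul_left, det2_smul_left]
        exact mul_le_mul_of_nonneg_left (hTmin z hz) (by linarith))
      have h2 : x + (1 / 2 : ℝ) • ((x + κ • e) - x) = x + (κ / 2) • e := by
        ext
        · simp only [Prod.fst_add, Prod.fst_sub, Prod.smul_fst, smul_eq_mul]; ring
        · simp only [Prod.snd_add, Prod.snd_sub, Prod.smul_snd, smul_eq_mul]; ring
      rw [h2] at hT's
      have h3 : T' - T = s' • (x + (κ / 2) • e - T) := by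
        rw [sub_eq_iff_eq_add, add_comm]; exact hT's
      rw [h3, det2_smul_right, det2_self, mul_zero]
  have h4 : det2 (x - T) (T' - T) = -(κ / 2) * det2 e (T' - T) := by
    have : (x + (κ / 2) • e) - T = (x - T) + (κ / 2) • e := by abel
    rw [this, det2_add_left, det2_smul_left] at hmid
    linarith
  have h5 : refl e (T' - T) T x = x + κ • e := by
    rw [Results.MP_035beb_an.Ellipse.refl, h4]
    have : 2 * (-(κ / 2) * det2 e (T' - T)) / det2 e (T' - T) = -κ := by
      field_simp
    rw [this, neg_smul]; abel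
  rw [h5]
  exact hyf
lemma refl_mem' (hK : IsCompact K) (hs : StrictConvex ℝ K) {e T T' : ℝ × ℝ}
    (he : e ≠ 0) (hdia : DiaDir K e) (hT : T ∈ frontier K) (hT' : T' ∈ frontier K)
    (hTmax : ∀ x ∈ K, det2 e x ≤ det2 e T) (hTmin : ∀ x ∈ K, det2 e T' ≤ det2 e x)
    (hδ : det2 e (T' - T) ≠ 0)
    {x : ℝ × ℝ} (hx : x ∈ K) : refl e (T' - T) T x ∈ K := by
  by_cases hxi : x ∈ interior K
  · obtain ⟨s, hs1, hZ⟩ := exists_opp hK hxi hT
    set Z := T + s • (x - T) with hZdef
    have h1 := refl_mem_frontier' hK hs he hdia hT hT' hTmax hTmin hδ hZ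
    have hs0 : s ≠ 0 := by linarith
    have h2 : refl e (T' - T) T x = T + s⁻¹ • (refl e (T' - T) T Z - T) := by
      have e1 : det2 (Z - T) (T' - T) = s * det2 (x - T) (T' - T) := by
        rw [hZdef, add_sub_cancel_left, det2_smul_left]
      rw [Results.MP_035beb_an.Ellipse.refl, Results.MP_035beb_an.Ellipse.refl, e1, hZdef]
      ext
      · simp only [Prod.fst_add, Prod.fst_sub, Prod.smul_fst, smul_eq_mul]
        field_simp
        ring
      · simp only [Prod.snd_add, Prod.snd_sub, Prod.smul_snd, smul_eq_mul]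
        field_simp
        ring
    rw [h2]
    have h3 := hs.convex (frontier_sub hK hT) (frontier_sub hK h1)
      (show 0 ≤ 1 - s⁻¹ by
        have := inv_le_one_of_one_le₀ hs1.le
        linarith) (show 0 ≤ s⁻¹ by positivity) (by ring)
    convert h3 using 1
    ext
    · simp only [Prod.fst_add, Prod.fst_sub, Prod.smul_fst, smul_eq_mul]; ring
    · simp only [Prod.snd_add, Prod.snd_sub, Prod.smul_snd, smul_eq_mul]; ring
  · exact frontier_sub hK (refl_mem_frontier' hK hs he hdia hT hT' hTmax hTmin hδ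
      (mem_frontier_of hx hxi))
lemma reflection_data' (hK : IsCompact K) (hs : StrictConvex ℝ K) (hne : (interior K).Nonempty)
    {e : ℝ × ℝ} (he : e ≠ 0) (hdia : DiaDir K e) :
    ∃ T T' : ℝ × ℝ, T ∈ frontier K ∧ T' ∈ frontier K ∧ (∀ x ∈ K, det2 e x ≤ det2 e T) ∧
      (∀ x ∈ K, det2 e T' ≤ det2 e x) ∧ det2 e (T' - T) ≠ 0 ∧
      (∀ x ∈ frontier K, refl e (T' - T) T x ∈ frontier K) ∧
      det2 (centroid K - T) (T' - T) = 0 ∧ inertia K e (T' - T) = 0 := by
  obtain ⟨T, hT, T', hT', hmax, hmin⟩ := support_points hK hne he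
  have hδ := support_ne hne he hmax hmin
  have hSK : ∀ x ∈ K, refl e (T' - T) T x ∈ K := fun x hx =>
    refl_mem' hK hs he hdia hT hT' hmax hmin hδ hx
  have hodd : ∀ x, det2 (refl e (T' - T) T x - T) (T' - T) = - det2 (x - T) (T' - T) := by
    intro x
    have : refl e (T' - T) T x - T = (x - T) - (2 * det2 (x - T) (T' - T) / det2 e (T' - T)) • e := by
      rw [Results.MP_035beb_an.Ellipse.refl]; abel
    rw [this, det2_sub_left, det2_smul_left, div_mul_cancel₀ _ hδ]; ring
  have hcen : det2 (centroid K - T) (T' - T) = 0 :=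
    det2_centroid hK hne T (T' - T) (setIntegral_refl_odd hδ hSK _ hodd)
  refine ⟨T, T', hT, hT', hmax, hmin, hδ, fun x hx =>
    refl_mem_frontier' hK hs he hdia hT hT' hmax hmin hδ hx, hcen, ?_⟩
  rw [inertia_eq hK]
  refine setIntegral_refl_odd hδ hSK _ ?_
  intro x
  have h1 : det2 e (refl e (T' - T) T x - centroid K) = det2 e (x - centroid K) := by
    have : refl e (T' - T) T x - centroid K =
        (x - centroid K) - (2 * det2 (x - T) (T' - T) / det2 e (T' - T)) • e := by
      rw [Results.MP_035beb_an.Ellipse.refl]; abel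
    rw [this, det2_sub_right, det2_smul_right, det2_self, mul_zero, sub_zero]
  have h2 : ∀ y, det2 (T' - T) (y - centroid K) = - det2 (y - T) (T' - T) := by
    intro y
    have : y - centroid K = (y - T) - (centroid K - T) := by abel
    rw [this, det2_sub_right, det2_swap (y - T), det2_swap (centroid K - T), hcen]
    ring
  rw [h1, h2, h2, hodd]
  ring

end

end Pool.Agent.H75.Ov
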