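import Mathlib

/-!
Helper file for `MP_035beb_an.FarHarmonicPairs`: a closed plane set which is symmetric with
respect to infinitely many lines through the origin is symmetric with respect to all of them.
-/

open Topology Filter Set Complex

namespace Pool.Agent.H75.Ov

noncomputable section

/-- the reflection `z ↦ -z̄ e^{2iθ}`, which reverses `e^{iθ}` -/
def rf (θ : ℝ) (z : ℂ) : ℂ := -((starRingEnd ℂ) z) * exp ((2 * θ : ℝ) * I)

lemma rf_conj (α β : ℝ) (z : ℂ) : rf α (rf β (rf α z)) = rf (2 * α - β) z := by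
  have hc : ∀ t : ℝ, (starRingEnd ℂ) (exp ((t : ℂ) * I)) = exp (-((t : ℂ) * I)) := by
    intro t
    rw [← Complex.exp_conj]
    simp
  simp only [rf, map_neg, map_mul, Complex.conj_conj]
  rw [hc]
  have h1 : exp ((2 * (2 * α - β) : ℝ) * I) = exp ((2 * α : ℝ) * I) * exp (-((2 * β : ℝ) * I))
      * exp ((2 * α : ℝ) * I) := by
    rw [← Complex.exp_add, ← Complex.exp_add]
    congr 1
    push_cast
    ring
  rw [h1]
  ring

lemma rf_cont (z : ℂ) : Continuous (fun θ : ℝ => rf θ z) := by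
  unfold rf
  fun_prop

/-- the set of symmetry angles of `G` -/
def SymA (G : Set ℂ) : Set ℝ := {θ | ∀ z ∈ G, rf θ z ∈ G}

lemma symA_closed {G : Set ℂ} (hG : IsClosed G) : IsClosed (SymA G) := by
  have : SymA G = ⋂ z ∈ G, (fun θ : ℝ => rf θ z) ⁻¹' G := by
    ext θ; simp [SymA]
  rw [this]
  exact isClosed_biInter fun z _ => hG.preimage (rf_cont z)

lemma symA_refl {G : Set ℂ} {α β : ℝ} (hα : α ∈ SymA G) (hβ : β ∈ SymA G) :
    2 * α - β ∈ SymA G := by
  intro z hz
  rw [← rf_conj]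
  exact hα _ (hβ _ (hα _ hz))

/-- translations preserving the set of symmetry angles -/
def SymT (G : Set ℂ) : AddSubgroup ℝ where
  carrier := {t | ∀ x ∈ SymA G, x + t ∈ SymA G ∧ x - t ∈ SymA G}
  zero_mem' := fun x hx => by simpa using hx
  add_mem' := by
    intro s t hs ht x hx
    refine ⟨?_, ?_⟩
    · rw [← add_assoc]; exact (ht _ (hs _ hx).1).1
    · have := (ht _ (hs _ hx).2).2
      rw [sub_sub] at this
      exact this
  neg_mem' := by
    intro t ht x hx
    refine ⟨?_, ?_⟩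
    · rw [← sub_eq_add_neg]; exact (ht _ hx).2
    · rw [sub_neg_eq_add]; exact (ht _ hx).1

lemma symT_mem {G : Set ℂ} {α β : ℝ} (hα : α ∈ SymA G) (hβ : β ∈ SymA G) :
    2 * (α - β) ∈ SymT G := by
  intro x hx
  refine ⟨?_, ?_⟩
  · have := symA_refl hα (symA_refl hβ hx)
    convert this using 1
    ring
  · have := symA_refl hβ (symA_refl hα hx)
    convert this using 1
    ring

/-- infinitely many symmetry angles in a bounded interval force all angles -/
theorem all_angles {G : Set ℂ} (hG : IsClosed G) {a b : ℝ}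
    (hinf : (SymA G ∩ Icc a b).Infinite) (θ : ℝ) : θ ∈ SymA G := by
  obtain ⟨s0, hs0⟩ := hinf.nonempty
  -- arbitrarily close pairs
  have hclose : ∀ ε > 0, ∃ α ∈ SymA G, ∃ β ∈ SymA G, α ≠ β ∧ |α - β| < ε := by
    obtain ⟨x, -, hx⟩ := hinf.exists_accPt_of_subset_isCompact (isCompact_Icc (a := a) (b := b))
      inter_subset_right
    rw [accPt_iff_frequently] at hx
    intro ε hε
    obtain ⟨α, ⟨hαx, hα⟩, hαd⟩ := (hx.and_eventually (Metric.ball_mem_nhds x (half_pos hε))).exists
    have hd : 0 < |α - x| := abs_pos.2 (sub_ne_zero.2 hαx)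
    obtain ⟨β, ⟨hβx, hβ⟩, hβd⟩ := (hx.and_eventually (Metric.ball_mem_nhds x
      (lt_min (half_pos hε) hd))).exists
    rw [Real.dist_eq] at hαd hβd
    refine ⟨α, hα.1, β, hβ.1, ?_, ?_⟩
    · rintro rfl
      exact absurd (lt_of_lt_of_le hβd (min_le_right _ _)) (lt_irrefl _)
    · have h1 : |β - x| < ε / 2 := lt_of_lt_of_le hβd (min_le_left _ _)
      calc |α - β| = |(α - x) - (β - x)| := by congr 1; ring
        _ ≤ |α - x| + |β - x| := abs_sub _ _
        _ < ε := by linarith
  have hdense : Dense ((SymT G : AddSubgroup ℝ) : Set ℝ) := by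
    apply AddSubgroup.dense_of_not_isolated_zero
    intro ε hε
    obtain ⟨α, hα, β, hβ, hne, hlt⟩ := hclose (ε / 2) (by linarith)
    rcases lt_or_gt_of_ne hne with h | h
    · refine ⟨2 * (β - α), symT_mem hβ hα, ?_, ?_⟩
      · linarith
      · rw [abs_sub_comm, abs_of_pos (by linarith)] at hlt; linarith
    · refine ⟨2 * (α - β), symT_mem hα hβ, ?_, ?_⟩
      · linarith
      · rw [abs_of_pos (by linarith)] at hlt; linarith
  have hcl : IsClosed {t : ℝ | s0 + t ∈ SymA G} :=
    (symA_closed hG).preimage (continuous_const.add continuous_id)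
  have hsub : ((SymT G : AddSubgroup ℝ) : Set ℝ) ⊆ {t : ℝ | s0 + t ∈ SymA G} :=
    fun t ht => (ht s0 hs0.1).1
  have h1 : θ - s0 ∈ {t : ℝ | s0 + t ∈ SymA G} := by
    have h2 : closure ((SymT G : AddSubgroup ℝ) : Set ℝ) ⊆ {t : ℝ | s0 + t ∈ SymA G} :=
      closure_minimal hsub hcl
    exact h2 (hdense _)
  have h2 : s0 + (θ - s0) ∈ SymA G := h1
  rwa [add_sub_cancel] at h2

end

end Pool.Agent.H75.Ov
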