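import Pool.Agent.H75.Ov.Dir
import Pool.Agent.H75.Ov.Rot

/-!
Helper file for `MP_035beb_an.FarHarmonicPairs`: infinitely many directions with the diametral
property suffice for an ellipse.
-/

open Topology Filter Set
open Pool.Agent.Results.MP_035beb_an.Ellipse

namespace Pool.Agent.H75.Ov

noncomputable section

variable {K : Set (ℝ × ℝ)}

/-- the reflection of the inertia form, reversing `e` -/
def irefl (K : Set (ℝ × ℝ)) (e x : ℝ × ℝ) : ℝ × ℝ :=
  x - (2 * (inertia K (x - centroid K) e / inertia K e e)) • e

lemma irefl_smul (hK : IsCompact K) (hne : (interior K).Nonempty) {e : ℝ × ℝ} (he : e ≠ 0)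
    {r : ℝ} (hr : r ≠ 0) (x : ℝ × ℝ) : irefl K (r • e) x = irefl K e x := by
  have h1 := (inertia_pos hK hne he).ne'
  unfold irefl
  rw [inertia_smul_right, inertia_smul_left, inertia_smul_right, smul_smul]
  congr 2
  field_simp

/-- a direction with the diametral property is a direction of symmetry -/
lemma irefl_mem_of_dia (hK : IsCompact K) (hs : StrictConvex ℝ K) (hne : (interior K).Nonempty)
    {e : ℝ × ℝ} (he : e ≠ 0) (hdia : DiaDir K e) {x : ℝ × ℝ} (hx : x ∈ frontier K) :
    irefl K e x ∈ frontier K := by
  obtain ⟨T, T', hT, hT', hmax, hmin, hδ, hS, hcen, hin⟩ := reflection_data' hK hs hne he hdia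
  have h1 := hS x hx
  have hI := (inertia_pos hK hne he).ne'
  set a := T' - T with ha
  have e1 : det2 (x - T) a = det2 (x - centroid K) a := by
    have : x - T = (x - centroid K) + (centroid K - T) := by abel
    rw [this, det2_add_left, hcen, add_zero]
  have hcramer : (det2 e a) • (x - centroid K) =
      (det2 (x - centroid K) a) • e + (det2 e (x - centroid K)) • a := by
    ext
    · simp only [det2, Prod.smul_fst, Prod.fst_add, smul_eq_mul, Prod.snd_sub, Prod.fst_sub]; ring
    · simp only [det2, Prod.smul_snd, Prod.snd_add, smul_eq_mul, Prod.fst_sub, Prod.snd_sub]; ring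
  have h3 := congrArg (inertia K e) hcramer
  rw [inertia_smul_right, inertia_add_right, inertia_smul_right, inertia_smul_right, hin,
    inertia_symm e (x - centroid K), mul_zero, add_zero] at h3
  have h4 : inertia K (x - centroid K) e / inertia K e e = det2 (x - T) a / det2 e a := by
    rw [e1]
    field_simp
    linarith
  unfold irefl
  rw [h4]
  have h5 : Results.MP_035beb_an.Ellipse.refl e a T x =
      x - (2 * (det2 (x - T) a / det2 e a)) • e := by
    rw [Results.MP_035beb_an.Ellipse.refl, mul_div_assoc]
  rw [← h5]
  exact h1

/-- symmetry in all directions gives the diametral property -/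
lemma dia_of_irefl (hK : IsCompact K) (hs : StrictConvex ℝ K) (hne : (interior K).Nonempty)
    (H : ∀ e : ℝ × ℝ, e ≠ 0 → ∀ x ∈ frontier K, irefl K e x ∈ frontier K) : Dia K := by
  intro A hA B hB hAB T hT T' hT' hmax hmin
  set e : ℝ × ℝ := B - A with he
  have he0 : e ≠ 0 := sub_ne_zero.2 hAB.symm
  have hI := inertia_pos hK hne he0
  set C := centroid K with hC
  -- support points are fixed
  have hfix : ∀ S ∈ frontier K, ((∀ x ∈ K, det2 e x ≤ det2 e S) ∨ (∀ x ∈ K, det2 e S ≤ det2 e x)) →
      inertia K (S - C) e = 0 := by
    intro S hS h
    have h1 := H e he0 S hS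
    have h2 : det2 e (irefl K e S) = det2 e S := by
      unfold irefl
      rw [det2_sub_right, det2_smul_right, det2_self, mul_zero, sub_zero]
    have h3 : irefl K e S = S := by
      rcases h with h | h
      · exact max_unique hs he0 (frontier_sub hK hS) h (frontier_sub hK h1) h2
      · exact min_unique hs he0 (frontier_sub hK hS) h (frontier_sub hK h1) h2
    unfold irefl at h3
    have h4 : (2 * (inertia K (S - C) e / inertia K e e)) • e = 0 := by
      have := sub_eq_self.1 h3
      exact this
    rcases smul_eq_zero.1 h4 with h5 | h5
    · have h6 : inertia K (S - C) e / inertia K e e = 0 := by linarith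
      rcases div_eq_zero_iff.1 h6 with h7 | h7
      · exact h7
      · exact absurd h7 hI.ne'
    · exact absurd h5 he0
  have hTf := hfix T hT (Or.inl hmax)
  have hT'f := hfix T' hT' (Or.inr hmin)
  -- A goes to B
  set κ : ℝ := 2 * (inertia K (A - C) e / inertia K e e) with hκ
  have hAr : irefl K e A = A - κ • e := rfl
  have hAr' : irefl K e A ∈ frontier K := H e he0 A hA
  have hκ1 : κ = 0 ∨ κ = -1 := by
    by_contra hcon
    push Not at hcon
    refine no_three hK hs hA hB (z := A - κ • e) (hAr ▸ hAr') hAB ?_ ?_ ?_
    · intro h
      have : κ • e = 0 := sub_eq_self.1 h.symm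
      rcases smul_eq_zero.1 this with h | h
      · exact hcon.1 h
      · exact he0 h
    · intro h
      have h' : (κ + 1) • e = 0 := by
        have : B = A + e := by rw [he]; abel
        rw [this] at h
        rw [add_smul, one_smul]
        have h2 : A + e - (A - κ • e) = 0 := by rw [h, sub_self]
        rw [← h2]; abel
      rcases smul_eq_zero.1 h' with h | h
      · exact hcon.2 (by linarith)
      · exact he0 h
    · rw [← he]
      have : A - κ • e - A = (-κ) • e := by rw [neg_smul]; abel
      rw [this, det2_smul_right, det2_self, mul_zero]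
  have hBC : inertia K (B - C) e = inertia K (A - C) e + inertia K e e := by
    have : B - C = (A - C) + e := by rw [he]; abel
    rw [this, inertia_add_left]
  have hAC : inertia K (A - C) e = κ / 2 * inertia K e e := by
    rw [hκ]; field_simp
  have hκ2 : κ = -1 := by
    rcases hκ1 with h | h
    · exfalso
      -- then B is moved off
      have hB' := H e he0 B hB
      have h1 : inertia K (B - C) e / inertia K e e = 1 := by
        rw [hBC, hAC, h]
        field_simp
        ring
      have h2 : irefl K e B = B - (2 : ℝ) • e := by
        unfold irefl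
        rw [← hC, h1, mul_one]
      rw [h2] at hB'
      refine no_three hK hs hA hB (z := B - (2 : ℝ) • e) hB' hAB ?_ ?_ ?_
      · intro h
        have h3 : e = 0 := by
          have : A - (B - (2:ℝ) • e) = 0 := by rw [← h, sub_self]
          have h4 : A - (B - (2:ℝ) • e) = e := by
            have : B = A + e := by rw [he]; abel
            rw [this, two_smul]; abel
          rw [← h4]; exact this
        exact he0 h3
      · intro h
        have : (2:ℝ) • e = 0 := sub_eq_self.1 h.symm
        rcases smul_eq_zero.1 this with h | h
        · norm_num at h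
        · exact he0 h
      · rw [← he]
        have : B - (2:ℝ) • e - A = (-1 : ℝ) • e := by
          have : B = A + e := by rw [he]; abel
          rw [this, two_smul, neg_smul, one_smul]; abel
        rw [this, det2_smul_right, det2_self, mul_zero]
    · exact h
  set M : ℝ × ℝ := A + (1/2 : ℝ) • e with hM
  have hMf : inertia K (M - C) e = 0 := by
    have : M - C = (A - C) + (1/2 : ℝ) • e := by rw [hM]; abel
    rw [this, inertia_add_left, inertia_smul_left, hAC, hκ2]
    ring
  have hMint : M ∈ interior K := between_interior hs (frontier_sub hK hA) (frontier_sub hK hB) hAB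
    (by norm_num) (by norm_num)
  have hlt1 := interior_lt he0 hmax hMint
  have hlt2 := interior_gt he0 hmin hMint
  -- M - T and T' - T are both orthogonal to e
  have o1 : inertia K (M - T) e = 0 := by
    have : M - T = (M - C) - (T - C) := by abel
    rw [this, inertia_sub_left, hMf, hTf, sub_zero]
  have o2 : inertia K (T' - T) e = 0 := by
    have : T' - T = (T' - C) - (T - C) := by abel
    rw [this, inertia_sub_left, hT'f, hTf, sub_zero]
  have hMT : M - T ≠ 0 := by
    intro h
    rw [sub_eq_zero] at h
    exact not_interior hT (h ▸ hMint)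
  -- express T' - T in the basis e, M - T
  have hden : det2 e (M - T) ≠ 0 := by
    rw [det2_sub_right]; linarith
  have hcramer : (det2 e (M - T)) • (T' - T) =
      (det2 (T' - T) (M - T)) • e + (det2 e (T' - T)) • (M - T) := by
    ext
    · simp only [det2, Prod.smul_fst, Prod.fst_add, smul_eq_mul, Prod.snd_sub, Prod.fst_sub]; ring
    · simp only [det2, Prod.smul_snd, Prod.snd_add, smul_eq_mul, Prod.fst_sub, Prod.snd_sub]; ring
  have h3 := congrArg (fun z => inertia K z e) hcramer
  rw [inertia_smul_left, inertia_add_left, inertia_smul_left, inertia_smul_left, o1, o2] at h3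
  have h4 : det2 (T' - T) (M - T) = 0 := by
    have : det2 (T' - T) (M - T) * inertia K e e = 0 := by linarith
    rcases mul_eq_zero.1 this with h | h
    · exact h
    · exact absurd h hI.ne'
  rw [det2_swap, neg_eq_zero] at h4
  obtain ⟨s, hs'⟩ := exists_smul_of_det2 hMT h4
  refine ⟨s, ?_, ?_⟩
  · have h5 := congrArg (det2 e) hs'
    rw [det2_smul_right, det2_sub_right, det2_sub_right] at h5
    by_contra hcon
    push Not at hcon
    nlinarith
  · rw [← hs']; abel

end

end Pool.Agent.H75.Ov
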