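import Pool.Graph.R_seed8.Results.MP_035beb_an.Ellipse

/-!
Helper file for `MP_035beb_an.FarHarmonicPairs`: the key steps of the library proof
(`Pool.Graph.R_seed8.Results.MP_035beb_an.Ellipse`), redone under weaker hypotheses.
-/

open Topology Filter Set
open scoped LinearAlgebra.Projectivization
open Pool.Agent.Results.MP_035beb_an.Ellipse

namespace Pool.Agent.H75.Ov

noncomputable section

variable {K : Set (ℝ × ℝ)} {c : ℝ → ℝ × ℝ}

lemma involution' (hK : IsCompact K) (hs : StrictConvex ℝ K) (hd : Differentiable ℝ c)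
    (hper : Function.Periodic c 1) (hinj : InjOn c (Ico 0 1))
    (hreg : ∀ t, deriv c t ≠ 0) (hr : frontier K = range c)
    {A B : ℝ × ℝ} (hA : A ∈ frontier K) (hB : B ∈ frontier K) (hAB : A ≠ B)
    {p q : ℝ} (hp0 : 0 < p) (hp1 : p < 1) (hq : 1 < q) (hpq : p + q = 2 * p * q)
    {P Q : ℝ × ℝ} (hP : P = A + p • (B - A)) (hQ : Q = A + q • (B - A))
    {h : ℝ × ℝ → ℙ ℝ (ℝ × ℝ)} {v : ℝ → ℝ × ℝ} (hv : ∀ t, v t ≠ 0) (hinjh : InjOn h (range c))
    (hvd : Differentiable ℝ v) (hhv : ∀ t, h (c t) = Projectivization.mk ℝ (v t) (hv t))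
    (hW : ∀ t, det2 (v t) (deriv v t) ≠ 0) {M : (ℝ × ℝ) ≃ₗ[ℝ] (ℝ × ℝ)}
    (hconj : ∀ x ∈ frontier K,
      h (chordMap (frontier K) Q (chordMap (frontier K) P x)) = M • h x) :
    ∀ x ∈ frontier K, chordMap (frontier K) Q (chordMap (frontier K) P
      (chordMap (frontier K) Q (chordMap (frontier K) P x))) = x := by
  set e : ℝ × ℝ := B - A with he
  have he0 : e ≠ 0 := sub_ne_zero.2 hAB.symm
  have hB' : B = A + (1:ℝ) • e := by rw [he]; simp
  have hPint : P ∈ interior K := by
    rw [hP, he]
    exact between_interior hs (frontier_sub hK hA) (frontier_sub hK hB) hAB hp0 hp1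
  have hPf : P ∉ frontier K := fun h => not_interior h hPint
  have hQf : Q ∉ frontier K := by
    intro hQ'
    refine no_three hK hs hA hB hQ' hAB ?_ ?_ ?_
    · intro h
      have : q • e = 0 := by rw [hQ] at h; simpa using h.symm
      rcases smul_eq_zero.1 this with h | h
      · linarith
      · exact he0 h
    · intro h
      have : (q - 1) • e = 0 := by
        rw [sub_smul, one_smul]
        have h' := h
        rw [hQ, hB'] at h'
        have := add_left_cancel h'
        rw [one_smul] at this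
        rw [← this]; simp
      rcases smul_eq_zero.1 this with h | h
      · linarith
      · exact he0 h
    · rw [hQ, add_sub_cancel_left, ← he, det2_smul_right, det2_self]; ring
  have hσA : chordMap (frontier K) P A = B := by
    refine chordMap_eq hK hs hA hPf hB hAB.symm ?_
    have e1 : A - P = (-p) • e := by rw [hP]; simp
    have e2 : B - P = (1 - p) • e := by rw [hP, hB', sub_smul]; abel
    rw [e1, e2, det2_smul_left, det2_smul_right, det2_self]; ring
  have hσB : chordMap (frontier K) Q B = A := by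
    refine chordMap_eq hK hs hB hQf hA hAB ?_
    have e1 : A - Q = (-q) • e := by rw [hQ]; simp
    have e2 : B - Q = (1 - q) • e := by rw [hQ, hB', sub_smul]; abel
    rw [e1, e2, det2_smul_left, det2_smul_right, det2_self]; ring
  have hσA' : chordMap (frontier K) P B = A := by
    rw [← hσA]; exact chordMap_invol hK hs hA hPf
  have hσB' : chordMap (frontier K) Q A = B := by
    rw [← hσB]; exact chordMap_invol hK hs hB hQf
  obtain ⟨a, ha⟩ : A ∈ range c := hr ▸ hA
  obtain ⟨b, hb⟩ : B ∈ range c := hr ▸ hB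
  have hcf : ∀ t, c t ∈ frontier K := fun t => by rw [hr]; exact ⟨t, rfl⟩
  have hcc : Continuous c := hd.continuous
  -- the sequences
  set tn : ℕ → ℝ := fun n => a + 1 / ((n : ℝ) + 1) with htn
  have htn_lim : Tendsto tn atTop (𝓝 a) := by
    have := (tendsto_one_div_add_atTop_nhds_zero_nat (𝕜 := ℝ)).const_add a
    rwa [add_zero] at this
  have htn_ne : ∀ n, tn n - a ≠ 0 := by
    intro n
    simp only [htn, add_sub_cancel_left]
    positivity
  set xn : ℕ → ℝ × ℝ := fun n => c (tn n) with hxn
  have hxn_lim : Tendsto xn atTop (𝓝 A) := by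
    rw [← ha]; exact (hcc.tendsto a).comp htn_lim
  have hxnf : ∀ n, xn n ∈ frontier K := fun n => hcf _
  set yn : ℕ → ℝ × ℝ := fun n => chordMap (frontier K) P (xn n) with hyn
  have hynf : ∀ n, yn n ∈ frontier K := fun n => chordMap_mem (hxnf n)
  set zn : ℕ → ℝ × ℝ := fun n => chordMap (frontier K) Q (yn n) with hzn
  have hznf : ∀ n, zn n ∈ frontier K := fun n => chordMap_mem (hynf n)
  have hyn_lim : Tendsto yn atTop (𝓝 B) := by
    have hex : ∀ n, ∃ s : ℝ, 1 < s ∧ yn n = xn n + s • (P - xn n) := fun n =>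
      chordMap_interior hK hs (hxnf n) hPf hPint (by rw [sub_self]; simp [det2])
    choose sn hsn1 hsn2 using hex
    refine opp_tendsto hK hs (p := P) (y := A) (z := B) (pn := fun _ => P) (yn := xn)
      (τn := fun n => (sn n)⁻¹) hPint hA hB ⟨1 / p, by positivity, ?_⟩ tendsto_const_nhds hxn_lim
      (Eventually.of_forall hynf) (Eventually.of_forall fun n => conv_of_exit (hsn1 n) (hsn2 n))
    rw [hP, add_sub_cancel_left, smul_smul, one_div, inv_mul_cancel₀ hp0.ne', hB']
  have hzn_lim : Tendsto zn atTop (𝓝 A) := by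
    set τ : ℝ := (p - 1) / (q - 1) with hτ
    have hq1 : q - 1 ≠ 0 := by linarith
    have hPB : P = B + τ • (Q - B) := by
      have e1 : Q - B = (q - 1) • e := by rw [hQ, hB', sub_smul]; abel
      rw [e1, smul_smul, hτ, div_mul_cancel₀ _ hq1, hP, hB', sub_smul]; abel
    set pn : ℕ → ℝ × ℝ := fun n => yn n + τ • (Q - yn n) with hpn
    have hpn_lim : Tendsto pn atTop (𝓝 P) := by
      rw [hPB]
      exact hyn_lim.add ((tendsto_const_nhds.sub hyn_lim).const_smul τ)
    have hpn_int : ∀ᶠ n in atTop, pn n ∈ interior K :=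
      hpn_lim.eventually (isOpen_interior.mem_nhds hPint)
    have hex : ∀ n, ∃ s : ℝ, pn n ∈ interior K → (1 < s ∧ zn n = yn n + s • (pn n - yn n)) := by
      intro n
      by_cases hn : pn n ∈ interior K
      · obtain ⟨s, h1, h2⟩ := chordMap_interior hK hs (hynf n) hQf hn (by
          have : pn n - Q = (1 - τ) • (yn n - Q) := by
            rw [hpn]; ext <;> simp <;> ring
          rw [this, det2_smul_right, det2_self, mul_zero])
        exact ⟨s, fun _ => ⟨h1, h2⟩⟩
      · exact ⟨0, fun h => absurd h hn⟩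
    choose sn hsn using hex
    refine opp_tendsto hK hs (p := P) (y := B) (z := A) (pn := pn) (yn := yn)
      (τn := fun n => (sn n)⁻¹) hPint hB hA ⟨1 / (1 - p), ?_, ?_⟩ hpn_lim hyn_lim
      (Eventually.of_forall hznf) (hpn_int.mono fun n hn => conv_of_exit (hsn n hn).1 (hsn n hn).2)
    · have : 0 < 1 - p := by linarith
      positivity
    · have hp1' : 1 - p ≠ 0 := by linarith
      have e2 : P - B = (-(1 - p)) • e := by
        rw [hP, hB']
        ext <;> simp <;> ring
      rw [e2, smul_smul, hB']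
      have : 1 / (1 - p) * (-(1 - p)) = -1 := by field_simp
      rw [this]
      ext <;> simp
  obtain ⟨sn, hsn_c, hsn_lim⟩ := param_tendsto hcc hper hinj (a := a) (zn := zn)
    (fun n => by rw [← hr]; exact hznf n) (by rw [ha]; exact hzn_lim)
  -- affine coordinates along and across the line `AB`
  set D : ℝ := e.1 ^ 2 + e.2 ^ 2 with hD
  have hD0 : 0 < D := by
    rcases (show e.1 ≠ 0 ∨ e.2 ≠ 0 by
      by_contra hcon
      push Not at hcon
      exact he0 (Prod.ext hcon.1 hcon.2)) with h1 | h1
    · have := sq_nonneg e.2; positivity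
    · have := sq_nonneg e.1; positivity
  set f : ℝ × ℝ → ℝ := fun x => det2 e (x - A) with hf
  set g : ℝ × ℝ → ℝ := fun x => (e.1 * (x - A).1 + e.2 * (x - A).2) / D with hg
  have hfc : Continuous f := by
    simp only [hf, det2, Prod.fst_sub, Prod.snd_sub]; fun_prop
  have hgc : Continuous g := by
    simp only [hg, Prod.fst_sub, Prod.snd_sub]; fun_prop
  have hgA : g A = 0 := by simp [hg]
  have hgB : g B = 1 := by
    simp only [hg]
    rw [← he, hD]
    have : e.1 * e.1 + e.2 * e.2 = e.1 ^ 2 + e.2 ^ 2 := by ring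
    rw [this]
    exact div_self hD0.ne'
  have hkey : ∀ (r : ℝ) (x y : ℝ × ℝ), det2 (x - (A + r • e)) (y - (A + r • e)) = 0 →
      (g x - r) * f y = f x * (g y - r) := by
    intro r x y h0
    have h1 : D * ((g x - r) * f y - f x * (g y - r)) =
        D * det2 (x - (A + r • e)) (y - (A + r • e)) := by
      simp only [hg, hf, det2, Prod.fst_sub, Prod.snd_sub, Prod.fst_add, Prod.snd_add,
        Prod.smul_fst, Prod.smul_snd, smul_eq_mul]
      field_simp
      rw [hD]
      ring
    rw [h0, mul_zero] at h1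
    rcases mul_eq_zero.1 h1 with h | h
    · exact absurd h hD0.ne'
    · linarith
  have rel1 : ∀ n, f (zn n) * ((g (yn n) - q) * (g (xn n) - p)) =
      f (xn n) * ((g (yn n) - p) * (g (zn n) - q)) := by
    intro n
    have k1 := hkey p (xn n) (yn n) (by rw [← hP]; exact chordMap_det _ _ _)
    have k2 := hkey q (yn n) (zn n) (by rw [← hQ]; exact chordMap_det _ _ _)
    calc f (zn n) * ((g (yn n) - q) * (g (xn n) - p))
        = ((g (yn n) - q) * f (zn n)) * (g (xn n) - p) := by ring
      _ = (f (yn n) * (g (zn n) - q)) * (g (xn n) - p) := by rw [k2]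
      _ = ((g (xn n) - p) * f (yn n)) * (g (zn n) - q) := by ring
      _ = (f (xn n) * (g (yn n) - p)) * (g (zn n) - q) := by rw [k1]
      _ = _ := by ring
  -- the function `φ = f ∘ c`
  set φ : ℝ → ℝ := fun t => f (c t) with hφ
  have hφd : HasDerivAt φ (det2 e (deriv c a)) a := by
    have h1 := (hd a).hasDerivAt
    have h2 := hasDerivAt_fst_comp h1
    have h3 := hasDerivAt_snd_comp h1
    have h4 := ((h3.sub_const A.2).const_mul e.1).sub ((h2.sub_const A.1).const_mul e.2)
    exact h4
  have hφa : φ a = 0 := by simp [hφ, hf, ha, det2]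
  have hφ1 : det2 e (deriv c a) ≠ 0 := by
    have := transversal hK hs hd hreg hr (a := a) hPint
    rw [ha, hP, add_sub_cancel_left, det2_smul_left] at this
    exact right_ne_zero_of_mul this
  set Φ : ℝ → ℝ := dslope φ a with hΦ
  have hΦ_eq : ∀ s, φ s = (s - a) * Φ s := by
    intro s
    have := sub_smul_dslope φ a s
    rw [hφa, sub_zero, smul_eq_mul] at this
    exact this.symm
  have hΦ_lim : ContinuousAt Φ a := continuousAt_dslope_same.2 hφd.differentiableAt
  have hΦa : Φ a = det2 e (deriv c a) := by rw [hΦ, dslope_same, hφd.deriv]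
  -- the ratio
  set rn : ℕ → ℝ := fun n => (sn n - a) / (tn n - a) with hrn
  have hr_lim : Tendsto rn atTop (𝓝 (-1)) := by
    set un : ℕ → ℝ := fun n => (g (yn n) - q) * (g (xn n) - p) with hun
    set wn : ℕ → ℝ := fun n => (g (yn n) - p) * (g (zn n) - q) with hwn
    have hun_lim : Tendsto un atTop (𝓝 ((1 - q) * (0 - p))) := by
      rw [← hgB, ← hgA]
      exact (((hgc.tendsto B).comp hyn_lim).sub_const q).mul
        (((hgc.tendsto A).comp hxn_lim).sub_const p)
    have hwn_lim : Tendsto wn atTop (𝓝 ((1 - p) * (0 - q))) := by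
      rw [← hgB, ← hgA]
      exact (((hgc.tendsto B).comp hyn_lim).sub_const p).mul
        (((hgc.tendsto A).comp hzn_lim).sub_const q)
    have hrel : ∀ n, rn n * (Φ (sn n) * un n) = Φ (tn n) * wn n := by
      intro n
      have h1 := rel1 n
      rw [← hsn_c n, hxn] at h1
      change φ (sn n) * un n = φ (tn n) * ((g (yn n) - p) * (g (c (sn n)) - q)) at h1
      rw [hΦ_eq, hΦ_eq (tn n)] at h1
      have h2 : (g (yn n) - p) * (g (c (sn n)) - q) = wn n := by
        simp only [hwn, hsn_c]
      rw [h2] at h1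
      have h3 := htn_ne n
      simp only [hrn]
      field_simp
      linarith
    have hden : Tendsto (fun n => Φ (sn n) * un n) atTop (𝓝 (Φ a * ((1 - q) * (0 - p)))) :=
      (hΦ_lim.tendsto.comp hsn_lim).mul hun_lim
    have hnum : Tendsto (fun n => Φ (tn n) * wn n) atTop (𝓝 (Φ a * ((1 - p) * (0 - q)))) :=
      (hΦ_lim.tendsto.comp htn_lim).mul hwn_lim
    have hne : Φ a * ((1 - q) * (0 - p)) ≠ 0 := by
      rw [hΦa]
      have : (1 - q) * (0 - p) ≠ 0 := by
        have : 0 < (1 - q) * (0 - p) := by nlinarith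
        exact this.ne'
      exact mul_ne_zero hφ1 this
    have hquot := hnum.div hden hne
    have hval : Φ a * ((1 - p) * (0 - q)) / (Φ a * ((1 - q) * (0 - p))) = -1 := by
      rw [div_eq_iff hne]
      have : (1 - p) * (0 - q) = - ((1 - q) * (0 - p)) := by linarith
      rw [this]; ring
    rw [hval] at hquot
    refine hquot.congr' ?_
    filter_upwards [hden.eventually_ne hne] with n hn
    simp only [Pi.div_apply]
    rw [div_eq_iff hn, hrel n]
  -- the projective side
  have hfixA : h A = M • h A := by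
    have := hconj A hA
    rwa [hσA, hσB] at this
  have hfixB : h B = M • h B := by
    have := hconj B hB
    rwa [hσA', hσB'] at this
  rw [← ha, hhv a, Projectivization.smul_mk] at hfixA
  rw [← hb, hhv b, Projectivization.smul_mk] at hfixB
  obtain ⟨l, hl⟩ := (Projectivization.mk_eq_mk_iff' _ _ _ _ _).1 hfixA.symm
  obtain ⟨m, hm⟩ := (Projectivization.mk_eq_mk_iff' _ _ _ _ _).1 hfixB.symm
  have hl' : M (v a) = l • v a := hl.symm
  have hm' : M (v b) = m • v b := hm.symm
  have hl0 : l ≠ 0 := by
    rintro rfl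
    rw [zero_smul] at hl'
    exact hv a (M.map_eq_zero_iff.1 hl')
  set Δ : ℝ := det2 (v a) (v b) with hΔ
  have hΔ0 : Δ ≠ 0 := by
    intro h0
    obtain ⟨r, hr'⟩ := exists_smul_of_det2 (hv a) h0
    have h1 : h (c b) = h (c a) := by
      rw [hhv, hhv]
      exact (Projectivization.mk_eq_mk_iff' _ _ _ _ _).2 ⟨r, hr'.symm⟩
    have h2 := hinjh ⟨b, rfl⟩ ⟨a, rfl⟩ h1
    rw [ha, hb] at h2
    exact hAB h2.symm
  have cramer : ∀ w : ℝ × ℝ, Δ • w = det2 w (v b) • v a + det2 (v a) w • v b := by
    intro w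
    ext
    · simp only [hΔ, det2, Prod.smul_fst, Prod.fst_add, smul_eq_mul]; ring
    · simp only [hΔ, det2, Prod.smul_snd, Prod.snd_add, smul_eq_mul]; ring
  have hMw : ∀ w : ℝ × ℝ, Δ • M w = (det2 w (v b) * l) • v a + (det2 (v a) w * m) • v b := by
    intro w
    rw [← map_smul, cramer w, map_add, map_smul, map_smul, hl', hm', smul_smul, smul_smul]
  have hM1 : ∀ w : ℝ × ℝ, det2 (v a) (M w) = m * det2 (v a) w := by
    intro w
    have h1 := congrArg (det2 (v a)) (hMw w)
    rw [det2_smul_right, det2_add_right, det2_smul_right, det2_smul_right, det2_self, ← hΔ] at h1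
    apply mul_left_cancel₀ hΔ0
    linarith
  have hM2 : ∀ w : ℝ × ℝ, det2 (M w) (v b) = l * det2 w (v b) := by
    intro w
    have h1 : det2 (Δ • M w) (v b) =
      det2 ((det2 w (v b) * l) • v a + (det2 (v a) w * m) • v b) (v b) := by rw [hMw w]
    rw [det2_smul_left, det2_add_left, det2_smul_left, det2_smul_left, det2_self, ← hΔ] at h1
    apply mul_left_cancel₀ hΔ0
    linarith
  have rel2 : ∀ n, det2 (v a) (v (sn n)) * (l * det2 (v (tn n)) (v b)) =
      det2 (v (sn n)) (v b) * (m * det2 (v a) (v (tn n))) := by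
    intro n
    have h1 := hconj (xn n) (hxnf n)
    change h (zn n) = M • h (c (tn n)) at h1
    rw [← hsn_c n, hhv, hhv, Projectivization.smul_mk] at h1
    obtain ⟨k, hk⟩ := (Projectivization.mk_eq_mk_iff' _ _ _ _ _).1 h1
    have hk' : v (sn n) = k • M (v (tn n)) := hk.symm
    rw [hk', det2_smul_right, det2_smul_left, hM1, hM2]
    ring
  set β : ℝ → ℝ := fun t => det2 (v a) (v t) with hβ
  have hβd : HasDerivAt β (det2 (v a) (deriv v a)) a := by
    have h1 := (hvd a).hasDerivAt
    have h2 := hasDerivAt_fst_comp h1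
    have h3 := hasDerivAt_snd_comp h1
    exact (h3.const_mul (v a).1).sub (h2.const_mul (v a).2)
  have hβa : β a = 0 := det2_self _
  set Β : ℝ → ℝ := dslope β a with hΒ
  have hΒ_eq : ∀ s, β s = (s - a) * Β s := by
    intro s
    have := sub_smul_dslope β a s
    rw [hβa, sub_zero, smul_eq_mul] at this
    exact this.symm
  have hΒ_lim : ContinuousAt Β a := continuousAt_dslope_same.2 hβd.differentiableAt
  have hΒa : Β a = det2 (v a) (deriv v a) := by rw [hΒ, dslope_same, hβd.deriv]
  have hαc : Continuous (fun t => det2 (v t) (v b)) := by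
    have h1 := hvd.continuous
    simp only [det2]; fun_prop
  have hml : m = -l := by
    have hrel : ∀ n, rn n * (Β (sn n) * (l * det2 (v (tn n)) (v b))) =
        det2 (v (sn n)) (v b) * (m * Β (tn n)) := by
      intro n
      have h1 := rel2 n
      change β (sn n) * _ = _ * (m * β (tn n)) at h1
      rw [hΒ_eq, hΒ_eq (tn n)] at h1
      have h3 := htn_ne n
      simp only [hrn]
      field_simp
      linarith
    have hL : Tendsto (fun n => rn n * (Β (sn n) * (l * det2 (v (tn n)) (v b)))) atTop
        (𝓝 ((-1) * (Β a * (l * det2 (v a) (v b))))) :=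
      hr_lim.mul ((hΒ_lim.tendsto.comp hsn_lim).mul
        (((hαc.tendsto a).comp htn_lim).const_mul l))
    have hR : Tendsto (fun n => det2 (v (sn n)) (v b) * (m * Β (tn n))) atTop
        (𝓝 (det2 (v a) (v b) * (m * Β a))) :=
      ((hαc.tendsto a).comp hsn_lim).mul ((hΒ_lim.tendsto.comp htn_lim).const_mul m)
    have heq := tendsto_nhds_unique (hL.congr hrel) hR
    rw [← hΔ, hΒa] at heq
    have hW' := hW a
    have : (det2 (v a) (deriv v a) * Δ) * (m + l) = 0 := by linarith
    rcases mul_eq_zero.1 this with h | h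
    · exact absurd h (mul_ne_zero hW' hΔ0)
    · linarith
  have hMM : ∀ w : ℝ × ℝ, M (M w) = (l * l) • w := by
    intro w
    have h1 : Δ • M (M w) = Δ • ((l * l) • w) := by
      rw [hMw, hM1, hM2, hml, smul_comm, cramer w, smul_add, smul_smul, smul_smul]
      congr 2 <;> ring
    exact smul_right_injective _ hΔ0 h1
  intro x hx
  have hFx : chordMap (frontier K) Q (chordMap (frontier K) P x) ∈ frontier K :=
    chordMap_mem (chordMap_mem hx)
  have h1 := hconj _ hFx
  rw [hconj x hx] at h1
  obtain ⟨t, rfl⟩ : x ∈ range c := hr ▸ hx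
  have h2 : M • M • h (c t) = h (c t) := by
    rw [hhv, Projectivization.smul_mk, Projectivization.smul_mk]
    exact (Projectivization.mk_eq_mk_iff' _ _ _ _ _).2 ⟨l * l, (hMM _).symm⟩
  rw [h2] at h1
  exact hinjh (hr ▸ chordMap_mem (chordMap_mem hFx)) ⟨t, rfl⟩ h1

end

end Pool.Agent.H75.Ov
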