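import Pool.Graph.R_seed8.Results.MP_035beb_an.Ellipse

/-!
Helper file for `MP_035beb_an.FarHarmonicPairs`: midpoints of chords, from far harmonic pairs only.
Adapted from the library (`Pool.Graph.R_seed8.Results.MP_035beb_an.Ellipse`).
-/

open Topology Filter Set
open Pool.Agent.Results.MP_035beb_an.Ellipse

namespace Pool.Agent.H75.Ov

noncomputable section

variable {K : Set (ℝ × ℝ)} {c : ℝ → ℝ × ℝ}

lemma midpoint_on_diameter' (hK : IsCompact K) (hs : StrictConvex ℝ K)
    {A B : ℝ × ℝ} (hA : A ∈ frontier K) (hB : B ∈ frontier K) (hAB : A ≠ B)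
    (hyp : ∀ r : ℝ, ∃ q : ℝ, r < |q| ∧ ∀ x ∈ frontier K,
      chordMap (frontier K) (A + q • (B - A)) (chordMap (frontier K)
        (A + (q / (2 * q - 1)) • (B - A)) (chordMap (frontier K) (A + q • (B - A))
          (chordMap (frontier K) (A + (q / (2 * q - 1)) • (B - A)) x))) = x)
    {T T' : ℝ × ℝ} (hT : T ∈ frontier K) (hT' : T' ∈ frontier K)
    (hTmax : ∀ x ∈ K, det2 (B - A) x ≤ det2 (B - A) T)
    (hTmin : ∀ x ∈ K, det2 (B - A) T' ≤ det2 (B - A) x) :
    ∃ s : ℝ, 1 < s ∧ T' = T + s • ((A + (1/2 : ℝ) • (B - A)) - T) := by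
  set e : ℝ × ℝ := B - A with he
  have he0 : e ≠ 0 := sub_ne_zero.2 hAB.symm
  set M : ℝ × ℝ := A + (1/2 : ℝ) • e with hM
  have hMint : M ∈ interior K := between_interior hs (frontier_sub hK hA) (frontier_sub hK hB) hAB
    (by norm_num) (by norm_num)
  choose qf hqf1 hqf2 using hyp
  set qn : ℕ → ℝ := fun n => qf ((n : ℝ) + 1) with hqn
  have hq1 : ∀ n : ℕ, (n : ℝ) + 1 < |qn n| := fun n => hqf1 _
  have hq1' : ∀ n : ℕ, 1 < qn n ∨ qn n < -1 := by
    intro n
    have h1 := hq1 n
    have h2 : (0:ℝ) ≤ n := Nat.cast_nonneg n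
    rcases lt_abs.1 (lt_of_le_of_lt (by linarith : (1:ℝ) ≤ (n:ℝ) + 1) h1) with h | h
    · exact Or.inl h
    · right; linarith
  have hq0 : ∀ n, qn n ≠ 0 := by
    intro n h
    rcases hq1' n with h1 | h1 <;> rw [h] at h1 <;> linarith
  set pn : ℕ → ℝ := fun n => qn n / (2 * qn n - 1) with hpn
  have hp0 : ∀ n, 0 < pn n := fun n => by
    rcases hq1' n with h1 | h1
    · exact div_pos (by linarith) (by linarith)
    · exact div_pos_of_neg_of_neg (by linarith) (by linarith)
  have hp1 : ∀ n, pn n < 1 := fun n => by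
    rcases hq1' n with h1 | h1
    · simp only [hpn]; rw [div_lt_one (by linarith)]; linarith
    · simp only [hpn]; rw [div_lt_one_of_neg (by linarith)]; linarith
  set Pn : ℕ → ℝ × ℝ := fun n => A + pn n • e with hPn
  set Qn : ℕ → ℝ × ℝ := fun n => A + qn n • e with hQn
  have hPint : ∀ n, Pn n ∈ interior K := fun n =>
    between_interior hs (frontier_sub hK hA) (frontier_sub hK hB) hAB (hp0 n) (hp1 n)
  have hPf : ∀ n, Pn n ∉ frontier K := fun n h => not_interior h (hPint n)
  have hQf : ∀ n, Qn n ∉ frontier K := by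
    intro n hQ'
    have hq := hq1' n
    refine no_three hK hs hA hB hQ' hAB ?_ ?_ ?_
    · intro h
      have : qn n • e = 0 := by simpa [hQn] using h.symm
      rcases smul_eq_zero.1 this with h | h
      · exact hq0 n h
      · exact he0 h
    · intro h
      have : (qn n - 1) • e = 0 := by
        have h' : B - A = Qn n - A := by rw [← h]
        rw [← he] at h'
        simp only [hQn, add_sub_cancel_left] at h'
        rw [sub_smul, one_smul, ← h', sub_self]
      rcases smul_eq_zero.1 this with h | h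
      · rcases hq with hq | hq <;> linarith
      · exact he0 h
    · simp only [hQn, add_sub_cancel_left]
      rw [← he, det2_smul_right, det2_self]; ring
  have hinv : ∀ n, ∀ x ∈ frontier K, chordMap (frontier K) (Qn n) (chordMap (frontier K) (Pn n)
      (chordMap (frontier K) (Qn n) (chordMap (frontier K) (Pn n) x))) = x := fun n => hqf2 _
  set εn : ℕ → ℝ := fun n => (qn n)⁻¹ with hεn
  have hninv : Tendsto εn atTop (𝓝 0) := by
    have h1 : Tendsto (fun n : ℕ => |qn n|) atTop atTop :=
      tendsto_atTop_mono (fun n => (hq1 n).le)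
        (tendsto_atTop_add_const_right _ _ tendsto_natCast_atTop_atTop)
    have h2 := h1.inv_tendsto_atTop
    rw [tendsto_zero_iff_abs_tendsto_zero]
    refine h2.congr fun n => ?_
    simp [hεn, abs_inv]
  have hpn_lim : Tendsto pn atTop (𝓝 (1/2)) := by
    have h1 : ∀ n : ℕ, (2 - εn n)⁻¹ = pn n := by
      intro n
      have h2 := hq0 n
      have h3 : 2 * qn n - 1 ≠ 0 := by
        rcases hq1' n with h | h
        · linarith
        · have : 2 * qn n - 1 < 0 := by linarith
          exact this.ne
      simp only [hpn, hεn]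
      have h4 : 2 - (qn n)⁻¹ = (2 * qn n - 1) / qn n := by field_simp
      rw [h4, inv_div]
    have h2 := (hninv.const_sub 2).inv₀ (by norm_num)
    rw [sub_zero] at h2
    rw [one_div]
    exact h2.congr h1
  have hPn_lim : Tendsto Pn atTop (𝓝 M) := tendsto_const_nhds.add (hpn_lim.smul_const e)
  have hQn_lim : ∀ (w : ℕ → ℝ × ℝ) (w0 : ℝ × ℝ), Tendsto w atTop (𝓝 w0) →
      Tendsto (fun n : ℕ => εn n • (Qn n - w n)) atTop (𝓝 e) := by
    intro w w0 hw
    have h1 : ∀ n : ℕ, e + εn n • (A - w n) = εn n • (Qn n - w n) := by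
      intro n
      have h2 := hq0 n
      have h3 : Qn n - w n = qn n • e + (A - w n) := by
        simp only [hQn]; abel
      rw [h3, smul_add, smul_smul, inv_mul_cancel₀ h2, one_smul]
    have h2 := (hninv.smul (tendsto_const_nhds (x := A) |>.sub hw)).const_add e
    rw [zero_smul, add_zero] at h2
    exact h2.congr h1
  -- u_n → T
  set un : ℕ → ℝ × ℝ := fun n => chordMap (frontier K) (Qn n) T with hun
  have hunf : ∀ n, un n ∈ frontier K := fun n => chordMap_mem hT
  have hfc : IsCompact (frontier K) := hK.of_isClosed_subset isClosed_frontier (frontier_sub hK)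
  have hun_lim : Tendsto un atTop (𝓝 T) := by
    refine tendsto_of_subseq_tendsto fun ns hns => ?_
    obtain ⟨u, hu, φ, hφ, hl⟩ := hfc.tendsto_subseq (x := fun n => un (ns n)) (fun n => hunf _)
    refine ⟨φ, ?_⟩
    have h1 : ∀ n : ℕ, det2 (εn n • (Qn n - T)) (un n - T) = 0 := by
      intro n
      have h2 := chordMap_det (frontier K) (Qn n) T
      have h3 : det2 (Qn n - T) (un n - T) = - det2 (T - Qn n) (un n - Qn n) := by
        simp only [det2, Prod.fst_sub, Prod.snd_sub]; ring
      rw [det2_smul_left, h3, h2, neg_zero, mul_zero]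
    have h2 := (hQn_lim (fun _ => T) T tendsto_const_nhds).comp (hns.comp hφ.tendsto_atTop)
    have h3 := hl.sub_const T
    have hdc : Continuous (fun z : (ℝ × ℝ) × (ℝ × ℝ) => det2 z.1 z.2) := by
      simp only [det2]; fun_prop
    have h4 := (hdc.tendsto (e, u - T)).comp (h2.prodMk_nhds h3)
    have h5 : det2 e (u - T) = 0 := by
      refine tendsto_nhds_unique (h4.congr fun n => ?_) tendsto_const_nhds
      exact h1 _
    rw [det2_sub_right, sub_eq_zero] at h5
    have h6 : u = T := max_unique hs he0 (frontier_sub hK hT) hTmax (frontier_sub hK hu) h5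
    rw [← h6]
    exact hl
  -- the exit point Z
  obtain ⟨s, hs1, hZf⟩ := exists_opp hK hMint hT
  set Z : ℝ × ℝ := T + s • (M - T) with hZ
  set wn : ℕ → ℝ × ℝ := fun n => chordMap (frontier K) (Pn n) T with hwn
  have hwnf : ∀ n, wn n ∈ frontier K := fun n => chordMap_mem hT
  set zn : ℕ → ℝ × ℝ := fun n => chordMap (frontier K) (Pn n) (un n) with hzn
  have hznf : ∀ n, zn n ∈ frontier K := fun n => chordMap_mem (hunf n)
  have hwn_lim : Tendsto wn atTop (𝓝 Z) := by
    have hex : ∀ n, ∃ s : ℝ, 1 < s ∧ wn n = T + s • (Pn n - T) := fun n =>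
      chordMap_interior hK hs hT (hPf n) (hPint n) (by rw [sub_self]; simp [det2])
    choose sn hsn1 hsn2 using hex
    exact opp_tendsto hK hs (p := M) (y := T) (z := Z) (pn := Pn) (yn := fun _ => T)
      (τn := fun n => (sn n)⁻¹) hMint hT hZf ⟨s, by linarith, rfl⟩ hPn_lim tendsto_const_nhds
      (Eventually.of_forall hwnf) (Eventually.of_forall fun n => conv_of_exit (hsn1 n) (hsn2 n))
  have hzn_lim : Tendsto zn atTop (𝓝 Z) := by
    have hex : ∀ n, ∃ s : ℝ, 1 < s ∧ zn n = un n + s • (Pn n - un n) := fun n =>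
      chordMap_interior hK hs (hunf n) (hPf n) (hPint n) (by rw [sub_self]; simp [det2])
    choose sn hsn1 hsn2 using hex
    exact opp_tendsto hK hs (p := M) (y := T) (z := Z) (pn := Pn) (yn := un)
      (τn := fun n => (sn n)⁻¹) hMint hT hZf ⟨s, by linarith, rfl⟩ hPn_lim hun_lim
      (Eventually.of_forall hznf) (Eventually.of_forall fun n => conv_of_exit (hsn1 n) (hsn2 n))
  have hrel : ∀ n, chordMap (frontier K) (Qn n) (wn n) = zn n := by
    intro n
    have h1 := hinv n (wn n) (hwnf n)
    have h2 : chordMap (frontier K) (Pn n) (wn n) = T := chordMap_invol hK hs hT (hPf n)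
    rw [h2] at h1
    change chordMap (frontier K) (Qn n) (zn n) = wn n at h1
    rw [← h1]
    exact chordMap_invol hK hs (hznf n) (hQf n)
  have hTK := frontier_sub hK hT
  have hT'K := frontier_sub hK hT'
  have hZK := frontier_sub hK hZf
  have hlt1 := interior_lt he0 hTmax hMint
  have hlt2 := interior_gt he0 hTmin hMint
  have hMT : M - T ≠ 0 := by
    intro h
    rw [sub_eq_zero] at h
    exact not_interior hT (h ▸ hMint)
  -- Z is a point of support
  have hZext : det2 e Z = det2 e T ∨ det2 e Z = det2 e T' := by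
    by_contra hcon
    push Not at hcon
    have hZ1 : det2 e Z < det2 e T := lt_of_le_of_ne (hTmax Z hZK) hcon.1
    have hZ2 : det2 e T' < det2 e Z := lt_of_le_of_ne (hTmin Z hZK) (Ne.symm hcon.2)
    have hden : 0 < det2 e T - det2 e T' := by linarith
    set θ : ℝ := (det2 e Z - det2 e T') / (det2 e T - det2 e T') with hθ
    set m0 : ℝ × ℝ := T' + θ • (T - T') with hm0
    have hTT' : T' ≠ T := by
      intro h; rw [h] at hden; linarith
    have hm0int : m0 ∈ interior K := between_interior hs hT'K hTK hTT'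
      (div_pos (by linarith) hden) (by rw [hθ, div_lt_one hden]; linarith)
    have hm0Z : det2 e (m0 - Z) = 0 := by
      rw [hm0, det2_sub_right, det2_add_right, det2_smul_right, det2_sub_right, hθ,
        div_mul_cancel₀ _ hden.ne']
      ring
    obtain ⟨τ, hτ⟩ := exists_smul_of_det2 he0 hm0Z
    set mn : ℕ → ℝ × ℝ := fun n => wn n + τ • (εn n • (Qn n - wn n)) with hmn
    have hmn_lim : Tendsto mn atTop (𝓝 m0) := by
      have h1 := hwn_lim.add ((hQn_lim wn Z hwn_lim).const_smul τ)
      rw [← hτ, add_sub_cancel] at h1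
      exact h1
    have hmn_int : ∀ᶠ n in atTop, mn n ∈ interior K :=
      hmn_lim.eventually (isOpen_interior.mem_nhds hm0int)
    have hex : ∀ n, ∃ s : ℝ, mn n ∈ interior K → (1 < s ∧ zn n = wn n + s • (mn n - wn n)) := by
      intro n
      by_cases hn : mn n ∈ interior K
      · obtain ⟨s, h1, h2⟩ := chordMap_interior hK hs (hwnf n) (hQf n) hn (by
          have : mn n - Qn n = (1 - τ * εn n) • (wn n - Qn n) := by
            simp only [hmn]; ext <;> simp <;> ring
          rw [this, det2_smul_right, det2_self, mul_zero])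
        rw [hrel] at h2
        exact ⟨s, fun _ => ⟨h1, h2⟩⟩
      · exact ⟨0, fun h => absurd h hn⟩
    choose sn hsn using hex
    have hmn_lim2 : Tendsto mn atTop (𝓝 Z) := by
      have hdiff : Tendsto (fun n => zn n - wn n) atTop (𝓝 0) := by
        have := hzn_lim.sub hwn_lim
        rwa [sub_self] at this
      have hbd : Tendsto (fun n => mn n - wn n) atTop (𝓝 0) := by
        rw [tendsto_zero_iff_norm_tendsto_zero] at hdiff ⊢
        refine squeeze_zero' (Eventually.of_forall fun n => norm_nonneg _) ?_ hdiff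
        filter_upwards [hmn_int] with n hn
        obtain ⟨h1, h2⟩ := hsn n hn
        obtain ⟨h3, h4⟩ := conv_of_exit h1 h2
        have h5 : mn n - wn n = (sn n)⁻¹ • (zn n - wn n) := by
          rw [sub_eq_iff_eq_add, add_comm]; exact h4
        rw [h5, norm_smul, Real.norm_of_nonneg h3.1]
        exact mul_le_of_le_one_left (norm_nonneg _) h3.2
      have := hwn_lim.add hbd
      rw [add_zero] at this
      refine this.congr fun n => ?_
      abel
    have : m0 = Z := tendsto_nhds_unique hmn_lim hmn_lim2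
    exact not_interior hZf (this ▸ hm0int)
  rcases hZext with h | h
  · exfalso
    have h1 : Z = T := max_unique hs he0 hTK hTmax hZK h
    have h2 : s • (M - T) = 0 := by
      have : T + s • (M - T) = T := h1
      simpa using this
    rcases smul_eq_zero.1 h2 with h | h
    · linarith
    · exact hMT h
  · have h1 : Z = T' := min_unique hs he0 hT'K hTmin hZK h
    exact ⟨s, hs1, h1.symm⟩

end

end Pool.Agent.H75.Ov
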